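import Mathlib
import Pool.Agent.Helper60.T3.GoalsI

/-! Packet T3-CFACT (MP_a41896_nt): the derivation of the curve lemma. -/

set_option autoImplicit false

open MvPolynomial

namespace Pool.Agent.Helper52.T3.CFACT

open WeierstrassCurve
open Pool.Agent.Helper29.BL Pool.Agent.Helper42.SG
open Pool.Agent.Helper60.T3

noncomputable section

section

/-- `ψ(P)^2 = B(x(P))` for `P ≠ 0` -/
theorem ps_sq {F : Type} [Field F] (W : Affine F) (P : W.Point) (hP : P ≠ 0) :
    ps P ^ 2 = Bf W (xc P) := by
  cases P with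
  | zero => exact absurd rfl hP
  | some x y h =>
    have h1 := h.1
    rw [Affine.equation_iff] at h1
    simp only [ps, xc, Bf, WeierstrassCurve.b₂, WeierstrassCurve.b₄, WeierstrassCurve.b₆]
    linear_combination 4 * h1

/-- the chain rule -/
theorem chain2 {K : Type} [Field K] {F : Type} [Field F] [Algebra K F] (D : Derivation K F F)
    (x y : F) (p : MvPolynomial (Fin 2) K) :
    D (aeval ![x, y] p) = aeval ![x, y] (pderiv 0 p) * D x + aeval ![x, y] (pderiv 1 p) * D y := by
  induction p using MvPolynomial.induction_on with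
  | C a => simp
  | add p q hp hq =>
    simp only [map_add, hp, hq]
    ring
  | mul_X p i hp =>
    rw [map_mul, aeval_X, Derivation.leibniz, hp, Derivation.leibniz, Derivation.leibniz]
    fin_cases i
    · simp
      ring
    · simp
      ring

variable {k : Type} [Field k] [CharZero k] {κ : Type} [Field κ] [IsAlgClosed κ] {L : Type}
  [Field L] [Algebra k κ] [Algebra κ L] [Algebra k L] [IsScalarTower k κ L]

/-- a zero of `B` is algebraic -/
theorem alg_of_Bf (W : Affine k) (x : L) (h : Bf (WL L W) x = 0) : IsAlgebraic κ x := by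
  have h1 : IsAlgebraic k x := by
    refine ⟨Polynomial.C 4 * Polynomial.X ^ 3 + Polynomial.C W.b₂ * Polynomial.X ^ 2 +
      Polynomial.C (2 * W.b₄) * Polynomial.X + Polynomial.C W.b₆, ?_, ?_⟩
    · intro h0
      have h2 := congrArg (fun q => Polynomial.coeff q 3) h0
      simp [Polynomial.coeff_X, Polynomial.coeff_C] at h2
    · simp only [Bf, WeierstrassCurve.map_b₂, WeierstrassCurve.map_b₄,
        WeierstrassCurve.map_b₆] at h
      simp only [map_add, map_mul, Polynomial.aeval_C, map_pow, Polynomial.aeval_X, map_ofNat]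
      linear_combination h
  exact h1.tower_top κ

/-- an algebraic element is a constant -/
theorem const_of_alg (x : L) (h : IsAlgebraic κ x) : x ∈ Set.range (algebraMap κ L) := by
  have h1 := minpoly.mem_range_of_degree_eq_one κ x
    (IsAlgClosed.degree_eq_one_of_irreducible κ (minpoly.irreducible h.isIntegral))
  simpa using h1

/-- the derivation kills the constants -/
theorem D_const (D : Derivation κ L L) (x : L) (h : x ∈ Set.range (algebraMap κ L)) :
    D x = 0 := by
  obtain ⟨c, rfl⟩ := h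
  exact D.map_algebraMap c

/-- `D x = ψ z'` -/
theorem Dx (W : Affine k) (D : Derivation κ L L) (P : (WL L W).Point) (hP : P ≠ 0) :
    D (xc P) = ps P * zd D P := by
  by_cases h : ps P = 0
  · have h1 : Bf (WL L W) (xc P) = 0 := by rw [← ps_sq _ P hP, h]; ring
    rw [D_const D _ (const_of_alg _ (alg_of_Bf (κ := κ) W _ h1)), h, zero_mul]
  · unfold zd
    field_simp

end

section

variable {k : Type} [Field k] [CharZero k] {κ : Type} [Field κ] {L : Type}
  [Field L] [DecidableEq L] [Algebra k κ] [Algebra κ L] [Algebra k L] [IsScalarTower k κ L]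

theorem zd_zero (W : Affine k) (D : Derivation κ L L) : zd D (0 : (WL L W).Point) = 0 := by
  simp [zd, ps]

theorem zd_add (h1 : S_DADD) (W : Affine k) [W.IsElliptic] (D : Derivation κ L L)
    (P Q : (WL L W).Point) : zd D (P + Q) = zd D P + zd D Q :=
  h1 k L W (D.restrictScalars k) P Q

theorem zd_neg (h1 : S_DADD) (W : Affine k) [W.IsElliptic] (D : Derivation κ L L)
    (P : (WL L W).Point) : zd D (-P) = - zd D P := by
  have h := zd_add h1 W D P (-P)
  rw [add_neg_cancel, zd_zero] at h
  linear_combination -h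

theorem zd_sub (h1 : S_DADD) (W : Affine k) [W.IsElliptic] (D : Derivation κ L L)
    (P Q : (WL L W).Point) : zd D (P - Q) = zd D P - zd D Q := by
  rw [sub_eq_add_neg, zd_add h1, zd_neg h1]
  ring

theorem zd_nsmul (h1 : S_DADD) (W : Affine k) [W.IsElliptic] (D : Derivation κ L L)
    (P : (WL L W).Point) (n : ℕ) : zd D (n • P) = n * zd D P := by
  induction n with
  | zero => rw [zero_smul, zd_zero]; simp
  | succ n ih =>
    rw [succ_nsmul, zd_add h1, ih]
    push_cast
    ring

end

theorem t (h1 : S_DADD) (h2 : S_DEX) (_h3 : S_GENQ) : Pool.Agent.Helper60.T3.S_CFACT := by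
  intro k κ L _ _ _ _ _ _ _ _ _ _ W2 W3 _ _ D0 e g g' a2 b2 a3 b3 hc
  haveI : CharZero κ := charZero_of_injective_algebraMap (algebraMap k κ).injective
  haveI : CharZero L := charZero_of_injective_algebraMap (algebraMap k L).injective
  have hps : ps a2 ≠ 0 := by
    intro h
    have h4 : Bf (WL L W2) (xc a2) = 0 := by rw [← ps_sq _ a2 hc.a2n, h]; ring
    exact hc.tra (alg_of_Bf (κ := κ) W2 _ h4)
  obtain ⟨D, hD, hker⟩ := h2 κ L (xc a2) (ps a2) hc.tra hps
  have one : zd D a2 = 1 := by
    unfold zd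
    rw [hD, div_self hps]
  have zb2 : zd D b2 = 2 ^ e := by
    have h4 : zd D ((2 ^ e) • a2 - b2) = 0 := by
      rcases hc.kw with h | h
      · rw [h, zd_zero]
      · unfold zd
        rw [D_const D _ h.1, zero_div]
    rw [zd_sub h1, zd_nsmul h1, one] at h4
    push_cast at h4
    linear_combination -h4
  have zw3 : zd D ((2 ^ e) • a3 - b3) = 2 ^ e * zd D a3 - zd D b3 := by
    rw [zd_sub h1, zd_nsmul h1]
    push_cast
    ring
  have ea : zd D a3 ^ 2 * N1c W3 g (xc a2) (xc a3) = N0c W2 g (xc a2) (xc a3) := by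
    have h5 := chain2 (D.restrictScalars k) (xc a2) (xc a3) g
    rw [hc.on, map_zero, Derivation.restrictScalars_apply, Derivation.restrictScalars_apply,
      Dx W2 D a2 hc.a2n, Dx W3 D a3 hc.a3n, one] at h5
    unfold N1c N0c
    rw [← ps_sq _ a2 hc.a2n, ← ps_sq _ a3 hc.a3n]
    linear_combination
      (aeval ![xc a2, xc a3] (pderiv 0 g) * ps a2 - aeval ![xc a2, xc a3] (pderiv 1 g) *
        (ps a3 * zd D a3)) * h5
  have eb : zd D b3 ^ 2 * N1c W3 g' (xc b2) (xc b3) = 4 ^ e * N0c W2 g' (xc b2) (xc b3) := by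
    have h5 := chain2 (D.restrictScalars k) (xc b2) (xc b3) g'
    rw [hc.on', map_zero, Derivation.restrictScalars_apply, Derivation.restrictScalars_apply,
      Dx W2 D b2 hc.b2n, Dx W3 D b3 hc.b3n, zb2] at h5
    unfold N1c N0c
    rw [← ps_sq _ b2 hc.b2n, ← ps_sq _ b3 hc.b3n]
    have h6 : (4 : L) ^ e = 2 ^ e * 2 ^ e := by rw [← mul_pow]; norm_num
    rw [h6]
    linear_combination
      (aeval ![xc b2, xc b3] (pderiv 0 g') * (ps b2 * 2 ^ e) -
        aeval ![xc b2, xc b3] (pderiv 1 g') * (ps b3 * zd D b3)) * h5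
  have h4e : (4 : L) ^ e ≠ 0 := pow_ne_zero _ (by norm_num)
  have na : N1c W3 g (xc a2) (xc a3) ≠ 0 := by
    intro h
    rw [h, mul_zero] at ea
    apply hc.slo
    rw [← ea, h]
    ring
  have nb : N1c W3 g' (xc b2) (xc b3) ≠ 0 := by
    intro h
    rw [h, mul_zero] at eb
    have h7 : N0c W2 g' (xc b2) (xc b3) = 0 := by
      rcases mul_eq_zero.1 eb.symm with h8 | h8
      · exact absurd h8 h4e
      · exact h8
    apply hc.slo
    rw [h, h7]
    ring
  refine ⟨D, one, hker, zb2, zw3, ea, na, eb, nb, ?_⟩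
  intro h
  apply hc.slo
  apply mul_left_cancel₀ h4e
  linear_combination
    (-(4 : L) ^ e * N1c W3 g' (xc b2) (xc b3)) * ea +
      (N1c W3 g (xc a2) (xc a3)) * eb +
      (N1c W3 g (xc a2) (xc a3) * N1c W3 g' (xc b2) (xc b3)) * h

end

end Pool.Agent.Helper52.T3.CFACT
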